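import Pool.Agent.W254.PA.LeoH

/-!
# Leopoldt relations with exponents in a fixed finite dimensional space

Let `p` be a prime and let `A` be a subspace, of finite dimension over the field of algebraic numbers,
of the algebraic closure of `ℚ_p`. A relation `∑ a_i log σ(ε_i) = 0` between the `p`-adic logarithms
of multiplicatively independent units `ε_1, ..., ε_r` of a number field `K`, for one embedding `σ` of
`K`, with exponents `a_i`, not all zero, which lie in `A` up to a common factor `y`, is called an
`A`-relation for `K`. (Brumer's theorem excludes them for `A` of dimension one. Leopoldt's conjecture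
for `K` and `p` fails iff there are multiplicatively independent units and `p`-adic integers `a_i`,
not all zero, with this relation for all embeddings `σ` at once.)

(1) There is one finite normal extension `F₀` of `ℚ` such that there is no `A`-relation for any
algebraic extension `K` of `ℚ` with `K ∩ F₀ = ℚ`.

(2) There are only finitely many algebraic extensions `K` of `ℚ` (in a fixed algebraic closure)
without intermediate fields for which there is an `A`-relation.

So if Leopoldt's conjecture fails at `p` for infinitely many primitive number fields (of whatever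
degrees) then the exponents of the relations, normalised in any way, generate a space of infinite
dimension over the algebraic numbers.

The proof is in the starting files `Pool.Agent.W254.PA` (hyperplane case of the linear subgroup
theorem of Waldschmidt and Roy, `p`-adic version; Brumer's theorem is in `Pool.Agent.W245.PB`).
-/

set_option autoImplicit false

namespace Pool.Agent.Results.MP_5f2860_nt.AlmostAllFields

open NumberField

/-- `L` is the Iwasawa `p`-adic logarithm on the algebraic closure of `ℚ_p`. -/
def IsIwasawaLog (p : ℕ) [Fact p.Prime] (L : PadicAlgCl p → PadicAlgCl p) : Prop :=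
  (∀ x y : PadicAlgCl p, x ≠ 0 → y ≠ 0 → L (x * y) = L x + L y) ∧
  L ((p : ℕ) : PadicAlgCl p) = 0 ∧
  ∀ z : PadicAlgCl p, ‖z‖ < 1 →
    HasSum (fun n : ℕ => (-1 : PadicAlgCl p) ^ n * z ^ (n + 1) / ((n : PadicAlgCl p) + 1))
      (L (1 + z))

/-- The algebraic numbers in the algebraic closure of `ℚ_p`. -/
noncomputable abbrev Qb (p : ℕ) [Fact p.Prime] : IntermediateField ℚ (PadicAlgCl p) :=
  algebraicClosure ℚ (PadicAlgCl p)

/-- There is an `A`-relation for `K`: an embedding `σ` of `K` in the algebraic closure of `ℚ_p`,
multiplicatively independent units `ε_1, ..., ε_r` of the ring of integers of `K` and numbers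
`a_1, ..., a_r`, not all zero and of the form `y x_i` with `x_i` in `A`, such that
`∑ a_i L (σ ε_i) = 0`. -/
def HasRelation {p : ℕ} [Fact p.Prime] (L : PadicAlgCl p → PadicAlgCl p)
    (A : Submodule (Qb p) (PadicAlgCl p)) (K : IntermediateField ℚ (AlgebraicClosure ℚ)) : Prop :=
  ∃ (σ : K →+* PadicAlgCl p) (r : ℕ) (ε : Fin r → (𝓞 K)ˣ) (a : Fin r → PadicAlgCl p),
    (∀ m : Fin r → ℤ, ∏ i, ε i ^ m i = 1 → m = 0) ∧
    (∃ y : PadicAlgCl p, ∀ i, ∃ x ∈ A, a i = y * x) ∧
    ∑ i, a i * L (σ ((ε i : 𝓞 K) : K)) = 0 ∧ a ≠ 0

/-- **Main result.** For every finite dimensional space `A` of exponents there is a finite normal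
extension `F₀` of `ℚ` such that no algebraic extension `K` of `ℚ` with `K ∩ F₀ = ℚ` has an
`A`-relation, and only finitely many algebraic extensions `K` of `ℚ` without proper intermediate
fields have an `A`-relation. -/
theorem result (p : ℕ) [Fact p.Prime] (L : PadicAlgCl p → PadicAlgCl p) (hL : IsIwasawaLog p L)
    (A : Submodule (Qb p) (PadicAlgCl p)) [FiniteDimensional (Qb p) A] :
    (∃ F₀ : IntermediateField ℚ (AlgebraicClosure ℚ), FiniteDimensional ℚ F₀ ∧ Normal ℚ F₀ ∧
      ∀ K : IntermediateField ℚ (AlgebraicClosure ℚ), K ⊓ F₀ = ⊥ → ¬ HasRelation L A K) ∧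
    {K : IntermediateField ℚ (AlgebraicClosure ℚ) |
      (∀ M : IntermediateField ℚ (AlgebraicClosure ℚ), M ≤ K → M = ⊥ ∨ M = K) ∧
        HasRelation L A K}.Finite := by
  have hL' : Pool.Agent.W245.PB.IsIwasawaLog p L := ⟨hL.1, hL.2.1, hL.2.2⟩
  obtain ⟨⟨F₀, h1, h2, h3⟩, h4⟩ := Pool.Agent.W254.PA.almost_all hL' A
  refine ⟨⟨F₀, h1, h2, ?_⟩, ?_⟩
  · rintro K hK ⟨σ, r, ε, a, hind, ha, h0, hne⟩
    exact hne (h3 K hK σ r ε hind a ha h0)
  · exact h4

end Pool.Agent.Results.MP_5f2860_nt.AlmostAllFields
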