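import Pool.Agent.TH613.LP.Rank

/-!
# Leopoldt's conjecture: reduction to irreducible fields

`Leopoldt K p` is Leopoldt's conjecture for the number field `K` and the prime `p`, in the form of
the frozen statement: units of `K` congruent to `1` at all primes above `p` which are independent
over `ℤ` are independent over `ℤ_p` in the product of the completions above `p`.

Let `M` be a number field, Galois over `ℚ`, which contains `K`, and let `𝓕` be a set of subfields of
`M`. `DecomposesInto a 𝓕`, where `a : K → M` is the inclusion, says that every function, with rational
values, on the set of archimedean places of `K` (that is, on the set of embeddings of `K` into `ℂ`,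
and invariant under complex conjugation) is a rational linear combination of functions of the form
`σ ↦ ∑ Ψ(τ)`, sum over the embeddings `τ` of `M` which extend `σ`, where `Ψ` is a rational function
on the set of embeddings of `M` which depends only on the restrictions to some `F ∈ 𝓕`. `K` is
`Reducible` if this holds for some `M` and the set of all subfields of `M` of degree smaller than the
degree of `K`. (In terms of representations: each irreducible rational representation of the
absolute Galois group of `ℚ` which occurs in the functions on the embeddings of `K` and has nonzero
vectors fixed by complex conjugation occurs also in a field of smaller degree.)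

Theorem. Let `p` be a prime number.
(1) If `K` decomposes into `𝓕`, and Leopoldt's conjecture holds for all `F ∈ 𝓕` and `p`, then it
holds for `K` and `p`.
(2) Leopoldt's conjecture at `p` for all number fields is equivalent to its case for all `K` of unit
rank at least two which are not reducible. It is also equivalent to its case for all Galois `K` of
unit rank at least two such that the functions on the set of archimedean places are not generated by
functions which depend only on the restrictions to a proper subfield which is Galois over `ℚ`.
(3) If `K` is not reducible, then `K` is not a CM field; if it is Galois over `ℚ`, it is totally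
real; its automorphism group has no norm relations, all subgroups of order `q r` of this group, with
primes `q` and `r`, are cyclic, and it contains at most one element of order two.
(4) If `K` is Galois as in (2), then `K` is not a CM field, `Gal(K / ℚ)` has no norm relations with
normal subgroups, all central subgroups of order `q r`, with primes `q` and `r`, are cyclic.

Here a norm relation in a group `A` is an expression of `1` as a rational linear combination of
elements `a N_C b` of the group ring `ℚ[A]`, with `a, b ∈ A` and nontrivial subgroups `C` with sum of
elements `N_C`.

Everything is proved. The proof uses an equivalent form of Leopoldt's conjecture: for each `N` there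
is `k` such that all units congruent to `1` modulo `p ^ k` are `p ^ N`-th powers up to roots of unity;
and a splitting of the group ring `ℚ[G]`, `G = Gal(M / ℚ)`, by Maschke's theorem, into the left ideal
generated by the elements `(1 + c) g` and a left ideal which acts by zero on the units modulo torsion;
`c` is a complex conjugation.
-/

set_option autoImplicit false

namespace Pool.Agent.Results.MP_5f2860_nt.IrreducibleFields

open NumberField Pool.Agent.TH613.ZK Pool.Agent.TH613.LP

/-- Leopoldt's conjecture for a field which decomposes into a set of fields follows from its case for
these fields; the reduction to irreducible fields; properties of these fields. -/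
theorem result (p : ℕ) [Fact p.Prime] :
    (∀ (K M : Type) [Field K] [NumberField K] [Field M] [NumberField M] (a : K →+* M)
      (𝓕 : Set (IntermediateField ℚ M)), IsGalois ℚ M → DecomposesInto a 𝓕 →
      (∀ F ∈ 𝓕, Leopoldt F p) → Leopoldt K p) ∧
    List.TFAE [
      ∀ (K : Type) [Field K] [NumberField K], Leopoldt K p,
      ∀ (K : Type) [Field K] [NumberField K], 2 ≤ Units.rank K → ¬ Reducible K → Leopoldt K p,
      ∀ (K : Type) [Field K] [NumberField K], 2 ≤ Units.rank K → IsGalois ℚ K →
        ¬ GaloisReducible K → Leopoldt K p] ∧
    (∀ (K : Type) [Field K] [NumberField K], ¬ Reducible K →
      ¬ IsCMField K ∧ (IsGalois ℚ K → IsTotallyReal K) ∧ ¬ HasNormRelation (K ≃ₐ[ℚ] K) ∧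
      TightGroup (K ≃ₐ[ℚ] K)) ∧
    (∀ (K : Type) [Field K] [NumberField K], IsGalois ℚ K → ¬ GaloisReducible K →
      ¬ IsCMField K ∧ ¬ HasNormalNormRelation (K ≃ₐ[ℚ] K) ∧ TightCentre (K ≃ₐ[ℚ] K)) :=
  ⟨fun K M _ _ _ _ a 𝓕 hG h hF => leopoldt_of_decomposesInto p K M a 𝓕 hG h hF, main5 p,
    fun K _ _ h => props_of_irred K h, fun K _ _ hG h => props_of_galoisIrred K hG h⟩

end Pool.Agent.Results.MP_5f2860_nt.IrreducibleFields
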