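import Mathlib
import Pool.Agent.W332.SL7.Mono

set_option autoImplicit false

namespace Pool.Agent.Results.MP_5f2860_nt.MonomialCharacters

open NumberField Module Pool.Agent.W289.SL Pool.Agent.W332.SL7

/-- Let `H/K` be a finite (Galois) extension of number fields and `χ` a character of `Gal(H/K)` with
values in `ℂ_p` which separates the embeddings of `K` (Mackey's condition, so that the representation
of `Gal(ℚ̄/ℚ)` induced from `χ` is irreducible). Let `x_1, …, x_r`, `r ≥ 1`, be linearly independent
elements of the `χ`-part of `ℂ_p ⊗ 𝓞_H^×` in the kernel of Leopoldt's map, that is, killed by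
`log_p ∘ σ` for every embedding `σ` of `H`. Let `A` be a finite dimensional `ℚ̄`-subspace of `ℂ_p`
which contains coordinates of all `x_i`, and `N = [K:ℚ] r`. Then
* `N s ≤ (e + s)(e + s - 1)` whenever `B` is a finite dimensional `ℚ̄`-subspace of `ℂ_p`,
  `s ≤ dim B` and `dim (B A) ≤ dim B + e`;
* `N ≤ m (m - 1)` where `m = dim A`;
* `N ≤ 4 D - 2` if `dim A^k ≤ k D + c` for all `k`;
* `N ≤ (4 D)^n - 2^n` if `A` is contained in the span of the monomials of degree at most `D` in
  each of `n` given elements of `ℂ_p`. -/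
theorem result (p : ℕ) [Fact p.Prime] (K H : Type) [Field K] [NumberField K]
    [Field H] [NumberField H] [Algebra K H]
    (χ : (H ≃ₐ[K] H) →* ℂ_[p]ˣ) (hsep : Separates p K H Set.univ χ)
    (L : ℂ_[p] → ℂ_[p]) (hL : IsIwasawaLog p L)
    (r : ℕ) (hr : r ≠ 0) (x : Fin r → UM p H) (hx0 : Indep x)
    (hx : ∀ i, InKernel Set.univ χ hL (x i)) (A : QSub ℂ_[p]) (hAf : FinQ A)
    (hA : ∀ i, Coords A (x i)) : Bounds A (finrank ℚ K * r) :=
  monomial p K H χ hsep L hL r hr x hx0 hx A hAf hA

end Pool.Agent.Results.MP_5f2860_nt.MonomialCharacters
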